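import Pool.Agent.Lib.MP_5e4462_co.Cut

/-! Charging every arc of a minimal digraph to one of its ends. -/

namespace Pool.Agent.Lib.MP_5e4462_co

open Finset
open scoped Classical

variable {V : Type} [Fintype V] {k l : ℕ} {r s C : V → V → Prop} {T H : V → V → Finset V}

/-- A choice of cuts for all arcs; `C` marks the arcs that are critical in the digraph. -/
structure Data (k l : ℕ) (r s C : V → V → Prop) (T H : V → V → Finset V) : Prop where
  irr : ∀ v, ¬ r v v
  hs : ∀ a b, s a b ↔ r a b ∨ r b a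
  ck : Conn k r
  cl : Conn l s
  cC : ∀ x y, r x y → C x y → Cut k r x y (T x y) (H x y)
  cF : ∀ x y, r x y → ¬ C x y → ¬ r y x ∧ k < (univ.filter (r x)).card ∧
    k < (univ.filter fun z => r z y).card ∧ k < l ∧ Cut l s x y (T x y) (H x y)

theorem Data.sy (d : Data k l r s C T H) (a b : V) (h : s a b) : s b a :=
  (d.hs _ _).2 ((d.hs _ _).1 h).symm

theorem Data.flip (d : Data k l r s C T H) : Data k l (fun a b => r b a) s (fun a b => C b a)
    (fun a b => H b a) (fun a b => T b a) :=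
  ⟨d.irr, fun a b => (d.hs a b).trans or_comm, conn_flip d.ck, d.cl,
    fun x y h1 h2 => (d.cC y x h1 h2).flip, fun x y h1 h2 => by
      obtain ⟨h3, h4, h5, h6, h7⟩ := d.cF y x h1 h2
      exact ⟨h3, h5, h4, h6, h7.symm d.sy⟩⟩

/-- Heads of the arcs of kind `C` that are charged to their tail `v`. -/
noncomputable def ch (r C : V → V → Prop) (T H : V → V → Finset V) (v : V) : Finset V :=
  univ.filter fun x => r v x ∧ C v x ∧ (T v x).card ≤ (H v x).card

theorem mem_ch {v x : V} : x ∈ ch r C T H v ↔ r v x ∧ C v x ∧ (T v x).card ≤ (H v x).card := by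
  simp [ch]

theorem ch_one (d : Data k l r s C T H) {v : V} (h : k < (univ.filter (r v)).card) :
    (ch r C T H v).card ≤ 1 := card_le_one.2 fun x hx y hy => by
  by_contra hc
  rw [mem_ch] at hx hy
  have := tail d.ck (d.cC v x hx.1 hx.2.1) (d.cC v y hy.1 hy.2.1) hc hx.1 (d.irr v) hy.1 h
  omega

theorem ch_le (d : Data k l r s C T H) (hk : 1 ≤ k) (v : V) : (ch r C T H v).card ≤ k := by
  by_cases h : k < (univ.filter (r v)).card
  · exact (ch_one d h).trans hk
  · exact (card_le_card fun x hx => mem_filter.2 ⟨mem_univ _, (mem_ch.1 hx).1⟩).trans (not_lt.1 h)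

/-- The total charge of a vertex. -/
noncomputable def tot (r C : V → V → Prop) (T H : V → V → Finset V) (v : V) : ℕ :=
  (ch r C T H v).card + (ch r (fun a b => ¬ C a b) T H v).card +
    ((ch (fun a b => r b a) (fun a b => C b a) (fun a b => H b a) (fun a b => T b a) v).card +
    (ch (fun a b => r b a) (fun a b => ¬ C b a) (fun a b => H b a) (fun a b => T b a) v).card)

theorem half (d : Data k l r s C T H) (hk : 1 ≤ k) {v u : V}
    (hu : u ∈ ch r (fun a b => ¬ C a b) T H v) :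
    tot r C T H v ≤ if k = 1 then max 2 l else max (2 * k) (l + 1) := by
  unfold tot
  obtain ⟨oC, hoC⟩ : ∃ X, X = ch r C T H v := ⟨_, rfl⟩
  obtain ⟨oF, hoF⟩ : ∃ X, X = ch r (fun a b => ¬ C a b) T H v := ⟨_, rfl⟩
  obtain ⟨iC, hiC⟩ : ∃ X, X =
    ch (fun a b => r b a) (fun a b => C b a) (fun a b => H b a) (fun a b => T b a) v := ⟨_, rfl⟩
  obtain ⟨iF, hiF⟩ : ∃ X, X =
    ch (fun a b => r b a) (fun a b => ¬ C b a) (fun a b => H b a) (fun a b => T b a) v := ⟨_, rfl⟩
  have m1 : ∀ x ∈ oC, r v x ∧ C v x ∧ (T v x).card ≤ (H v x).card := fun x hx => mem_ch.1 (hoC ▸ hx)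
  have m2 : ∀ x ∈ oF, r v x ∧ ¬ C v x ∧ (T v x).card ≤ (H v x).card :=
    fun x hx => mem_ch.1 (hoF ▸ hx)
  have m3 : ∀ x ∈ iC, r x v ∧ C x v ∧ (H x v).card ≤ (T x v).card := fun x hx => by
    rw [hiC, mem_ch] at hx
    exact hx
  have m4 : ∀ x ∈ iF, r x v ∧ ¬ C x v ∧ (H x v).card ≤ (T x v).card := fun x hx => by
    rw [hiF, mem_ch] at hx
    exact hx
  have h1 := ch_le d.flip hk v
  rw [← hoF] at hu
  obtain ⟨hu1, hu2, hu3⟩ := m2 u hu
  obtain ⟨hu4, hu5, -, hkl, hu6⟩ := d.cF v u hu1 hu2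
  have h2 := ch_one d hu5
  rw [← hoC] at h2
  rw [← hiC] at h1
  rw [← hoC, ← hoF, ← hiC, ← hiF]
  have d1 : Disjoint oF iF := disjoint_left.2 fun x hx hy =>
    (d.cF v x (m2 x hx).1 (m2 x hx).2.1).1 (m4 x hy).1
  have d2 : Disjoint oF iC := disjoint_left.2 fun x hx hy =>
    (d.cF v x (m2 x hx).1 (m2 x hx).2.1).1 (m3 x hy).1
  have d3 : Disjoint iF iC := disjoint_left.2 fun x hx hy => (m4 x hx).2.1 (m3 x hy).2.1
  have hpos := card_pos.2 ⟨u, hu⟩
  by_cases hdeg : l < (univ.filter (s v)).card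
  · have h3 : ∀ x ∈ oF ∪ iF, s v x ∧ ∃ A B, Cut l s v x A B ∧ A.card ≤ B.card := fun x hx => by
      rcases mem_union.1 hx with h4 | h4
      · obtain ⟨h5, h6, h7⟩ := m2 x h4
        exact ⟨(d.hs _ _).2 (Or.inl h5), _, _, (d.cF v x h5 h6).2.2.2.2, h7⟩
      · obtain ⟨h5, h6, h7⟩ := m4 x h4
        exact ⟨(d.hs _ _).2 (Or.inr h5), _, _, (d.cF x v h5 h6).2.2.2.2.symm d.sy, h7⟩
    have h4 : (oF ∪ iF).card ≤ 1 := card_le_one.2 fun x hx y hy => by
      by_contra hc
      obtain ⟨h5, A, B, h6, h7⟩ := h3 x hx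
      obtain ⟨h8, A', B', h9, h10⟩ := h3 y hy
      have := tail d.cl h6 h9 hc h5 (fun h => d.irr v (((d.hs _ _).1 h).elim id id)) h8 hdeg
      omega
    rw [card_union_of_disjoint d1] at h4
    split_ifs with hk1
    · subst hk1
      rcases Nat.lt_or_ge 2 l with hl | hl
      · omega
      obtain rfl : l = 2 := by omega
      have h5 : oC = ∅ := eq_empty_of_forall_notMem fun x hx => by
        obtain ⟨h6, h7, h8⟩ := m1 x hx
        have := mixed d.ck d.hs (d.cC v x h6 h7) hu6 (fun h => hu2 (h ▸ h7)) h6 hu1 hu4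
        omega
      rw [h5, card_empty]
      omega
    · omega
  have n1 : ∀ x, r v x → x ∈ univ.filter (s v) := fun x hx =>
    mem_filter.2 ⟨mem_univ _, (d.hs _ _).2 (Or.inl hx)⟩
  have n2 : ∀ x, r x v → x ∈ univ.filter (s v) := fun x hx =>
    mem_filter.2 ⟨mem_univ _, (d.hs _ _).2 (Or.inr hx)⟩
  have h3 : oF ∪ iF ∪ iC ⊆ univ.filter (s v) := union_subset
    (union_subset (fun x hx => n1 x (m2 x hx).1) fun x hx => n2 x (m4 x hx).1)
    fun x hx => n2 x (m3 x hx).1
  have d4 : Disjoint (oF ∪ iF) iC := disjoint_union_left.2 ⟨d2, d3⟩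
  split_ifs with hk1
  · subst hk1
    have d5 : Disjoint (oF ∪ iF ∪ iC) oC := disjoint_left.2 fun x hx hy => by
      obtain ⟨h6, h7, -⟩ := m1 x hy
      rcases mem_union.1 hx with h4 | h4
      · rcases mem_union.1 h4 with h5 | h5
        · exact (m2 x h5).2.1 h7
        · exact (d.cF x v (m4 x h5).1 (m4 x h5).2.1).1 h6
      · exact no_digon d.ck d.hs d.cl hkl (d.cC v x h6 h7) (d.cC x v (m3 x h4).1 (m3 x h4).2.1)
          ((d.hs _ _).2 (Or.inl hu1)) (fun h => d.irr v (h ▸ hu1)) fun h => hu2 (h ▸ h7)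
    have h4 := card_le_card (union_subset h3 fun x hx => n1 x (m1 x hx).1 : _ ∪ oC ⊆ _)
    rw [card_union_of_disjoint d5, card_union_of_disjoint d4, card_union_of_disjoint d1] at h4
    omega
  · have h4 := card_le_card h3
    rw [card_union_of_disjoint d4, card_union_of_disjoint d1] at h4
    omega

theorem tot_le (d : Data k l r s C T H) (hk : 1 ≤ k) (v : V) :
    tot r C T H v ≤ if k = 1 then max 2 l else max (2 * k) (l + 1) := by
  rcases (ch r (fun a b => ¬ C a b) T H v).eq_empty_or_nonempty with h1 | ⟨u, hu⟩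
  · rcases (ch (fun a b => r b a) (fun a b => ¬ C b a) (fun a b => H b a)
      (fun a b => T b a) v).eq_empty_or_nonempty with h2 | ⟨u, hu⟩
    · have h3 := ch_le d hk v
      have h4 := ch_le d.flip hk v
      unfold tot
      rw [h1, h2, card_empty]
      split_ifs <;> omega
    · exact (le_of_eq (add_comm _ _)).trans (half d.flip hk hu)
  · exact half d hk hu

theorem card_le_tot (A : Finset (V × V)) (C : V → V → Prop) (T H : V → V → Finset V) :
    A.card ≤ ∑ v, tot (fun a b => (a, b) ∈ A) C T H v := by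
  let r : V → V → Prop := fun a b => (a, b) ∈ A
  have h1 : A ⊆ univ.biUnion fun v =>
      (ch r C T H v ∪ ch r (fun a b => ¬ C a b) T H v).image (fun x => (v, x)) ∪
      (ch (fun a b => r b a) (fun a b => C b a) (fun a b => H b a) (fun a b => T b a) v ∪
        ch (fun a b => r b a) (fun a b => ¬ C b a) (fun a b => H b a) (fun a b => T b a) v).image
        fun x => (x, v) := by
    rintro ⟨x, y⟩ he
    rw [mem_biUnion]
    rcases le_total (T x y).card (H x y).card with h | h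
    · refine ⟨x, mem_univ _, mem_union_left _ (mem_image.2 ⟨y, mem_union.2 ?_, rfl⟩)⟩
      exact (em (C x y)).imp (fun c => mem_ch.2 ⟨he, c, h⟩) fun c => mem_ch.2 ⟨he, c, h⟩
    · refine ⟨y, mem_univ _, mem_union_right _ (mem_image.2 ⟨x, mem_union.2 ?_, rfl⟩)⟩
      exact (em (C x y)).imp (fun c => mem_ch.2 ⟨he, c, h⟩) fun c => mem_ch.2 ⟨he, c, h⟩
  refine (card_le_card h1).trans (card_biUnion_le.trans (sum_le_sum fun v _ => ?_))
  exact (card_union_le _ _).trans (add_le_add (card_image_le.trans (card_union_le _ _))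
    (card_image_le.trans (card_union_le _ _)))

theorem crit {r r' : V → V → Prop} (h : Conn k r) (h' : ¬ Conn k r') : ∃ A B : Finset V,
    Disjoint A B ∧ (∀ a ∈ A, ∀ b ∈ B, ¬ r' a b) ∧ Fintype.card V < k + A.card + B.card ∧
      ∃ a ∈ A, ∃ b ∈ B, r a b := by
  obtain ⟨A, B, h1, h2, h3, h4, h5⟩ := exists_pair h'
  refine ⟨A, B, h3, h4, h5, ?_⟩
  by_contra hc
  push Not at hc
  have := conn_pair h h1 h2 h3 hc
  omega

theorem deg_of {r r' : V → V → Prop} (h : Conn k r') {x y : V} (hxy : x ≠ y) (h1 : r x y)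
    (h2 : ¬ r' x y) (h3 : ∀ b, r' x b → r x b) (h4 : ¬ r x x) : k < (univ.filter (r x)).card := by
  have hy : y ∈ univ.filter (r x) := mem_filter.2 ⟨mem_univ _, h1⟩
  have hx : x ∉ (univ.filter (r x)).erase y := fun h => h4 (mem_filter.1 (mem_erase.1 h).2).2
  have h5 := conn_pair h (singleton_nonempty x)
    (H := (insert x ((univ.filter (r x)).erase y))ᶜ) ⟨y, by simp [hxy.symm]⟩ (by simp)
    fun a ha b hb hab => by
      rw [mem_singleton.1 ha] at hab
      refine mem_compl.1 hb (mem_insert_of_mem (mem_erase.2 ⟨?_, mem_filter.2 ⟨mem_univ _, h3 b hab⟩⟩))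
      rintro rfl
      exact h2 hab
  have h6 := card_le_univ (insert x ((univ.filter (r x)).erase y))
  have h7 := card_pos.2 ⟨y, hy⟩
  rw [card_compl, card_singleton] at h5
  rw [card_insert_of_notMem hx, card_erase_of_mem hy] at h5 h6
  omega

theorem main [DecidableEq V] (hk : 1 ≤ k) (A : Finset (V × V)) (hloop : ∀ v, (v, v) ∉ A) (hA : Good k l A)
    (hmin : ∀ e ∈ A, ¬ Good k l (A.erase e)) :
    A.card ≤ (if k = 1 then max 2 l else max (2 * k) (l + 1)) * Fintype.card V := by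
  let r : V → V → Prop := fun a b => (a, b) ∈ A
  let s : V → V → Prop := fun a b => (a, b) ∈ A ∨ (b, a) ∈ A
  let C : V → V → Prop := fun x y => ¬ Conn k fun a b => (a, b) ∈ A.erase (x, y)
  have key : ∀ x y, ∃ T H : Finset V, r x y → (C x y → Cut k r x y T H) ∧
      (¬ C x y → ¬ r y x ∧ Cut l s x y T H) := fun x y => by
    by_cases hxy : r x y
    swap
    · exact ⟨∅, ∅, fun h => absurd h hxy⟩
    by_cases hC : C x y
    · obtain ⟨T, H, h1, h2, h3, a, ha, b, hb, hab⟩ := crit hA.1 hC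
      have h4 : ∀ a ∈ T, ∀ b ∈ H, r a b → a = x ∧ b = y := fun a ha b hb hab => by
        by_contra hc
        exact h2 a ha b hb (mem_erase.2 ⟨fun h => hc (Prod.mk.inj h), hab⟩)
      obtain ⟨rfl, rfl⟩ := h4 a ha b hb hab
      exact ⟨T, H, fun _ => ⟨fun _ => ⟨ha, hb, h1, h4, h3⟩, fun h => absurd hC h⟩⟩
    · obtain ⟨T, H, h1, h2, h3, a, ha, b, hb, hab⟩ :=
        crit hA.2 fun h => hmin (x, y) hxy ⟨not_not.1 hC, h⟩
      have h4 : ∀ a ∈ T, ∀ b ∈ H, s a b → a = x ∧ b = y ∨ b = x ∧ a = y := fun a ha b hb hab => by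
        by_contra hc
        rw [not_or] at hc
        exact h2 a ha b hb (hab.imp (fun h => mem_erase.2 ⟨fun h => hc.1 (Prod.mk.inj h), h⟩)
          fun h => mem_erase.2 ⟨fun h => hc.2 (Prod.mk.inj h), h⟩)
      have h5 : r y x → (y, x) ∈ A.erase (x, y) := fun h =>
        mem_erase.2 ⟨fun h' => hloop x ((Prod.mk.inj h').1 ▸ hxy), h⟩
      rcases h4 a ha b hb hab with ⟨rfl, rfl⟩ | ⟨rfl, rfl⟩
      · refine ⟨T, H, fun _ => ⟨fun h => absurd h hC, fun _ => ⟨fun h => h2 a ha b hb (Or.inr (h5 h)),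
          ha, hb, h1, fun a' ha' b' hb' h => (h4 a' ha' b' hb' h).resolve_right fun h6 => ?_, h3⟩⟩⟩
        exact disjoint_left.1 h1 ha (h6.1 ▸ hb')
      · refine ⟨H, T, fun _ => ⟨fun h => absurd h hC, fun _ => ⟨fun h => h2 a ha b hb (Or.inl (h5 h)),
          hb, ha, h1.symm, fun a' ha' b' hb' h =>
            (h4 b' hb' a' ha' h.symm).resolve_left fun h6 => ?_, by omega⟩⟩⟩
        exact disjoint_left.1 h1 (h6.1 ▸ hb') hb
  choose T H hTH using key
  have d : Data k l r s C T H := ⟨hloop, fun _ _ => Iff.rfl, hA.1, hA.2,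
    fun x y h1 h2 => (hTH x y h1).1 h2, fun x y h1 h2 => by
      have h3 : x ≠ y := fun h => hloop x (h ▸ h1)
      refine ⟨((hTH x y h1).2 h2).1, deg_of (not_not.1 h2) h3 h1 (notMem_erase _ _)
        (fun b h => mem_of_mem_erase h) (hloop x), deg_of (r := fun a b => r b a)
        (conn_flip (not_not.1 h2)) h3.symm h1 (notMem_erase _ _) (fun b h => mem_of_mem_erase h)
        (hloop y), ?_, ((hTH x y h1).2 h2).2⟩
      by_contra hc
      exact hmin (x, y) h1 ⟨not_not.1 h2, conn_mono (not_not.1 h2) (not_lt.1 hc) fun _ _ => Or.inl⟩⟩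
  refine (card_le_tot A C T H).trans ((sum_le_sum fun v _ => tot_le d hk v).trans ?_)
  rw [sum_const, card_univ, smul_eq_mul, mul_comm]

end Pool.Agent.Lib.MP_5e4462_co
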