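import Pool.Agent.Lib.MP_5e4462_co.Defs

/-! One-way pairs, critical arcs and the uncrossing lemmas. -/

namespace Pool.Agent.Lib.MP_5e4462_co

open Finset
open scoped Classical

variable {V : Type} [Fintype V] {k l : ℕ} {r s : V → V → Prop}

theorem conn_pair (h : Conn k r) {T H : Finset V} (hT : T.Nonempty) (hH : H.Nonempty)
    (hd : Disjoint T H) (hno : ∀ a ∈ T, ∀ b ∈ H, ¬ r a b) :
    k + T.card + H.card ≤ Fintype.card V := by
  by_contra hc
  obtain ⟨u, hu⟩ := hT
  obtain ⟨w, hw⟩ := hH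
  have h1 : (T ∪ H)ᶜ.card < k := by
    have := card_le_univ (T ∪ H)
    rw [card_compl, card_union_of_disjoint hd] at *
    omega
  have h2 : ∀ z, Relation.ReflTransGen (fun a b => r a b ∧ a ∉ (T ∪ H)ᶜ ∧ b ∉ (T ∪ H)ᶜ) u z →
      z ∈ T := fun z hz => by
    induction hz with
    | refl => exact hu
    | tail _ hb ih =>
      have h3 := hb.2.2
      rw [mem_compl, not_not, mem_union] at h3
      exact h3.resolve_right fun h4 => hno _ ih _ h4 hb.1
  exact disjoint_left.1 hd (h2 w (h _ h1 u w (by simp [hu]) (by simp [hw]))) hw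

theorem exists_pair (h : ¬ Conn k r) : ∃ T H : Finset V, T.Nonempty ∧ H.Nonempty ∧ Disjoint T H ∧
    (∀ a ∈ T, ∀ b ∈ H, ¬ r a b) ∧ Fintype.card V < k + T.card + H.card := by
  unfold Conn at h
  push Not at h
  obtain ⟨X, hX, u, w, hu, hw, h⟩ := h
  let R := Relation.ReflTransGen (fun a b => r a b ∧ a ∉ X ∧ b ∉ X) u
  refine ⟨Xᶜ.filter R, Xᶜ.filter fun z => ¬ R z, ⟨u, ?_⟩, ⟨w, ?_⟩, disjoint_filter_filter_not _ _ _,
    fun a ha b hb hab => ?_, ?_⟩
  · exact mem_filter.2 ⟨mem_compl.2 hu, Relation.ReflTransGen.refl⟩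
  · exact mem_filter.2 ⟨mem_compl.2 hw, h⟩
  · rw [mem_filter, mem_compl] at ha hb
    exact hb.2 (ha.2.tail ⟨hab, ha.1, hb.1⟩)
  · have h1 := card_filter_add_card_filter_not (s := Xᶜ) R
    have h2 := card_le_univ X
    rw [card_compl] at h1
    omega

theorem conn_flip (h : Conn k r) : Conn k fun a b => r b a := fun X hX u w hu hw => by
  have h1 := h X hX w u hw hu
  clear hu
  induction h1 with
  | refl => exact Relation.ReflTransGen.refl
  | tail _ hb ih => exact ih.head ⟨hb.1, hb.2.2, hb.2.1⟩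

theorem conn_mono (h : Conn k r) (hl : l ≤ k) (hs : ∀ a b, r a b → s a b) : Conn l s :=
  fun X hX u w hu hw => Relation.ReflTransGen.mono (fun a b hab => ⟨hs a b hab.1, hab.2⟩) _ _
    (h X (hX.trans_le hl) u w hu hw)

/-- The arc `x → y` is the only arc from `T` to `H`, and fewer than `k` vertices lie outside. -/
structure Cut (k : ℕ) (r : V → V → Prop) (x y : V) (T H : Finset V) : Prop where
  hx : x ∈ T
  hy : y ∈ H
  hd : Disjoint T H
  only : ∀ a ∈ T, ∀ b ∈ H, r a b → a = x ∧ b = y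
  big : Fintype.card V < k + T.card + H.card

theorem Cut.flip {x y : V} {T H : Finset V} (c : Cut k r x y T H) :
    Cut k (fun a b => r b a) y x H T :=
  ⟨c.hy, c.hx, c.hd.symm, fun a ha b hb h => (c.only b hb a ha h).symm, by have := c.big; omega⟩

theorem Cut.symm {x y : V} {T H : Finset V} (hs : ∀ a b, s a b → s b a) (c : Cut k s x y T H) :
    Cut k s y x H T :=
  ⟨c.hy, c.hx, c.hd.symm, fun a ha b hb h => (c.only b hb a ha (hs _ _ h)).symm,
    by have := c.big; omega⟩

/-- Two critical arcs with a common tail of large out-degree. -/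
theorem tail (h : Conn k r) {v x y : V} {T H T' H' : Finset V} (c : Cut k r v x T H)
    (c' : Cut k r v y T' H') (hxy : x ≠ y) (hx : r v x) (hv : ¬ r v v)
    (hy : r v y) (hdeg : k < (univ.filter (r v)).card) :
    H.card + H'.card < T.card + T'.card := by
  have hvI : v ∈ T ∩ T' := mem_inter.2 ⟨c.hx, c'.hx⟩
  have hd : Disjoint (T ∩ T') (H ∪ H') := disjoint_union_right.2
    ⟨c.hd.mono_left inter_subset_left, c'.hd.mono_left inter_subset_right⟩
  have h1 : k + (T ∩ T').card + (H ∪ H').card ≤ Fintype.card V + 1 := by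
    rcases ((T ∩ T').erase v).eq_empty_or_nonempty with h0 | h0
    · have h2 : univ.filter (r v) ⊆ (T ∩ T' ∪ (H ∪ H'))ᶜ ∪ {x, y} := fun z hz => by
        have hz' : r v z := (mem_filter.1 hz).2
        rw [mem_union, mem_compl, mem_insert, mem_singleton]
        by_contra hc
        rw [not_or, not_not, mem_union, mem_union] at hc
        rcases hc.1 with h3 | h3 | h3
        · have : z = v := by
            by_contra h4
            exact notMem_empty z (h0 ▸ mem_erase.2 ⟨h4, h3⟩)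
          exact hv (this ▸ hz')
        · exact hc.2 (Or.inl (c.only v c.hx z h3 hz').2)
        · exact hc.2 (Or.inr (c'.only v c'.hx z h3 hz').2)
      have h3 := (card_le_card h2).trans (card_union_le _ _)
      have h4 := card_le_univ (T ∩ T' ∪ (H ∪ H'))
      rw [card_compl, card_union_of_disjoint hd, card_pair hxy] at *
      omega
    · have h2 := conn_pair h h0 ⟨x, mem_union_left H' c.hy⟩ (hd.mono_left (erase_subset _ _))
        fun a ha b hb hab => by
          obtain ⟨h3, h4⟩ := mem_erase.1 ha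
          rcases mem_union.1 hb with h5 | h5
          · exact h3 (c.only a (mem_inter.1 h4).1 b h5 hab).1
          · exact h3 (c'.only a (mem_inter.1 h4).2 b h5 hab).1
      rw [card_erase_of_mem hvI] at h2
      have := card_pos.2 ⟨v, hvI⟩
      omega
  have h2 := card_union_add_card_inter T T'
  have h3 := card_union_add_card_inter H H'
  have h4 := c.big
  have h5 := c'.big
  have h6 := card_pos.2 ⟨v, hvI⟩
  rcases (H ∩ H').eq_empty_or_nonempty with h0 | h0
  · rw [h0, card_empty] at h3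
    omega
  · have h7 := conn_pair h ⟨v, mem_union_left T' c.hx⟩ h0 (disjoint_union_left.2
      ⟨c.hd.mono_right inter_subset_left, c'.hd.mono_right inter_subset_right⟩)
      fun a ha b hb hab => by
        obtain ⟨h8, h9⟩ := mem_inter.1 hb
        rcases mem_union.1 ha with h10 | h10
        · obtain ⟨-, rfl⟩ := c.only a h10 b h8 hab
          exact hxy (c'.only v c'.hx b h9 hx).2
        · obtain ⟨-, rfl⟩ := c'.only a h10 b h9 hab
          exact hxy (c.only v c.hx b h8 hy).2.symm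
    omega

theorem Cut.cover {x y : V} {T H : Finset V} (c : Cut 1 r x y T H) (z : V) : z ∈ T ∨ z ∈ H := by
  have h1 := c.big
  have h2 : T ∪ H = univ := eq_univ_of_card _ (le_antisymm (card_le_univ _) (by
    rw [card_union_of_disjoint c.hd]; omega))
  exact mem_union.1 (h2 ▸ mem_univ z)

theorem out_arc (h : Conn 1 r) {T : Finset V} (hT : T.Nonempty) {z : V} (hz : z ∉ T) :
    ∃ a ∈ T, ∃ b, b ∉ T ∧ r a b := by
  by_contra hc
  push Not at hc
  have h1 := conn_pair h hT ⟨z, mem_compl.2 hz⟩ disjoint_compl_right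
    fun a ha b hb => hc a ha b (mem_compl.1 hb)
  have h2 := card_le_univ T
  rw [card_compl] at h1
  omega

/-- A strong bridge and an arc that is critical for biconnectivity, with a common tail. -/
theorem mixed (h : Conn 1 r) (hs : ∀ a b, s a b ↔ r a b ∨ r b a) {v x y : V}
    {T H T' H' : Finset V} (c : Cut 1 r v x T H) (c' : Cut 2 s v y T' H') (hxy : x ≠ y)
    (hx : r v x) (hy : r v y) (hyv : ¬ r y v) : H.card + H'.card < T.card + T'.card := by
  have hyT : y ∈ T := (c.cover y).resolve_right fun h1 => hxy (c.only v c.hx y h1 hy).2.symm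
  have hxH : x ∉ H' := fun h1 => hxy (c'.only v c'.hx x h1 ((hs _ _).2 (Or.inl hx))).2
  have hv : v ∉ H' := disjoint_left.1 c'.hd c'.hx
  obtain ⟨a, ha, b, hb, hab⟩ := out_arc h ⟨y, mem_inter.2 ⟨hyT, c'.hy⟩⟩ (z := v)
    fun h1 => hv (mem_inter.1 h1).2
  obtain ⟨ha1, ha2⟩ := mem_inter.1 ha
  have hb1 : b ∈ T := (c.cover b).resolve_right fun h1 => hv ((c.only a ha1 b h1 hab).1 ▸ ha2)
  have hb2 : b ∉ H' := fun h1 => hb (mem_inter.2 ⟨hb1, h1⟩)
  have hb3 : b ∉ T' := fun h1 => by
    obtain ⟨rfl, rfl⟩ := c'.only b h1 a ha2 ((hs _ _).2 (Or.inr hab))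
    exact hyv hab
  have h0 : Disjoint H H' := by
    by_contra hc
    obtain ⟨b', hb', a', ha', hab'⟩ := out_arc (conn_flip h) (not_disjoint_iff_nonempty_inter.1 hc)
      (z := v) fun h1 => hv (mem_inter.1 h1).2
    obtain ⟨h1, h2⟩ := mem_inter.1 hb'
    have h3 : a' ∈ H := (c.cover a').resolve_left fun h3 => hxH ((c.only a' h3 b' h1 hab').2 ▸ h2)
    have h4 : a' ∉ H' := fun h4 => ha' (mem_inter.2 ⟨h3, h4⟩)
    have h5 : a' ∉ T' := fun h5 => disjoint_left.1 c.hd c.hx
      ((c'.only a' h5 b' h2 ((hs _ _).2 (Or.inl hab'))).1 ▸ h3)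
    have h6 : ({b, a'} : Finset V) ⊆ (T' ∪ H')ᶜ := by
      intro z hz
      rw [mem_compl, mem_union, not_or]
      rcases mem_insert.1 hz with rfl | hz
      · exact ⟨hb3, hb2⟩
      · rw [mem_singleton.1 hz]
        exact ⟨h5, h4⟩
    have h7 := card_le_card h6
    have h8 := c'.big
    have h9 := card_le_univ (T' ∪ H')
    have h10 : b ≠ a' := fun h => disjoint_left.1 c.hd hb1 (h ▸ h3)
    rw [card_pair h10, card_compl] at h7
    rw [card_union_of_disjoint c'.hd] at h7 h9
    omega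
  have h1 : H ∪ H' ⊆ ({v, b} : Finset V)ᶜ := fun z hz => by
    rw [mem_compl, mem_insert, mem_singleton]
    rintro (rfl | rfl)
    · exact (mem_union.1 hz).elim (disjoint_left.1 c.hd c.hx) hv
    · exact (mem_union.1 hz).elim (disjoint_left.1 c.hd hb1) hb2
  have h2 := card_le_card h1
  have h3 := card_le_univ ({v, b} : Finset V)
  rw [card_union_of_disjoint h0, card_compl] at h2
  have h6 : v ≠ b := fun h => hb3 (h ▸ c'.hx)
  rw [card_pair h6] at h2 h3
  have h4 := c.big
  have h5 := c'.big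
  omega

/-- Two opposite strong bridges form a bridge of the underlying graph. -/
theorem no_digon (h : Conn 1 r) (hs : ∀ a b, s a b ↔ r a b ∨ r b a) (h2 : Conn l s) (hl : 2 ≤ l)
    {v z u : V} {T H T' H' : Finset V} (c : Cut 1 r v z T H) (c' : Cut 1 r z v T' H')
    (hu : s v u) (huv : u ≠ v) (huz : u ≠ z) : False := by
  have h3 : ∀ b ∈ H, b ∈ T' := fun b hb => by
    by_contra hc
    obtain ⟨b', hb', a', ha', hab'⟩ := out_arc (conn_flip h)
      ⟨b, mem_inter.2 ⟨hb, (c'.cover b).resolve_left hc⟩⟩ (z := v)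
      fun h1 => disjoint_left.1 c.hd c.hx (mem_inter.1 h1).1
    obtain ⟨h4, h5⟩ := mem_inter.1 hb'
    rcases c.cover a' with h6 | h6
    · exact disjoint_left.1 c'.hd c'.hx ((c.only a' h6 b' h4 hab').2 ▸ h5)
    rcases c'.cover a' with h7 | h7
    · exact disjoint_left.1 c.hd c.hx ((c'.only a' h7 b' h5 hab').2 ▸ h4)
    · exact ha' (mem_inter.2 ⟨h6, h7⟩)
  have h4 : ∀ a ∈ T, a ∈ H' := fun a ha => by
    by_contra hc
    obtain ⟨a', ha', b', hb', hab'⟩ := out_arc h
      ⟨a, mem_inter.2 ⟨ha, (c'.cover a).resolve_right hc⟩⟩ (z := v)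
      fun h1 => disjoint_left.1 c'.hd (mem_inter.1 h1).2 c'.hy
    obtain ⟨h4, h5⟩ := mem_inter.1 ha'
    rcases c.cover b' with h6 | h6
    · rcases c'.cover b' with h7 | h7
      · exact hb' (mem_inter.2 ⟨h6, h7⟩)
      · exact disjoint_left.1 c.hd h4 ((c'.only a' h5 b' h7 hab').1 ▸ c.hy)
    · exact disjoint_left.1 c'.hd h5 ((c.only a' h4 b' h6 hab').1 ▸ c'.hy)
  have h5 : ∀ a ∈ T, ∀ b ∈ H, s a b → a = v ∧ b = z := fun a ha b hb hab =>
    ((hs _ _).1 hab).elim (c.only a ha b hb) fun h6 => (c'.only b (h3 b hb) a (h4 a ha) h6).symm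
  have h6 : u ∈ T := (c.cover u).resolve_right fun h6 => huz (h5 v c.hx u h6 hu).2
  have h7 := conn_pair h2 ⟨u, mem_erase.2 ⟨huv, h6⟩⟩ ⟨z, c.hy⟩ (c.hd.mono_left (erase_subset _ _))
    fun a ha b hb hab => (mem_erase.1 ha).1 (h5 a (mem_erase.1 ha).2 b hb hab).1
  have h8 := c.big
  have h9 := card_pos.2 ⟨v, c.hx⟩
  rw [card_erase_of_mem c.hx] at h7
  omega

end Pool.Agent.Lib.MP_5e4462_co
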