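import Mathlib

/-! Vertex connectivity of a digraph and of its underlying graph. -/

namespace Pool.Agent.Lib.MP_5e4462_co

/-- `Conn k r`: after deleting any set `X` of fewer than `k` vertices, every remaining vertex is
joined to every remaining vertex by a walk along `r` that avoids `X`. -/
def Conn {V : Type} (k : ℕ) (r : V → V → Prop) : Prop :=
  ∀ X : Finset V, X.card < k → ∀ u w : V, u ∉ X → w ∉ X →
    Relation.ReflTransGen (fun a b => r a b ∧ a ∉ X ∧ b ∉ X) u w

/-- The digraph with arc set `A` stays strongly connected after deleting fewer than `k` vertices,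
and its underlying graph stays connected after deleting fewer than `l` vertices. -/
def Good {V : Type} (k l : ℕ) (A : Finset (V × V)) : Prop :=
  Conn k (fun a b => (a, b) ∈ A) ∧ Conn l (fun a b => (a, b) ∈ A ∨ (b, a) ∈ A)

end Pool.Agent.Lib.MP_5e4462_co
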